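import Mathlib

namespace Pool.Agent.Results.MP_afdbb1_co.LogConcavityFails

open SimpleGraph

/-- An `n`-leaf phylogenetic tree, for `n ≥ 3`: a finite tree all of whose vertices have
degree `1` or `3`, together with a bijective labelling of the vertices of degree `1` (the leaves)
by `Fin n`. -/
structure PhyloTree (n : ℕ) where
  V : Type
  fin : Finite V
  G : SimpleGraph V
  isTree : G.IsTree
  deg : ∀ v, (G.neighborSet v).ncard = 1 ∨ (G.neighborSet v).ncard = 3
  leaf : Fin n → V
  leaf_inj : Function.Injective leaf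
  leaf_range : ∀ v, (G.neighborSet v).ncard = 1 ↔ v ∈ Set.range leaf

/-- The partition of the labels (as an equivalence relation) obtained by deleting the edges in
`E`: two labels are related when their leaves lie in the same component. -/
def induced {n : ℕ} (T : PhyloTree n) (E : Set (Sym2 T.V)) : Setoid (Fin n) where
  r i j := (T.G.deleteEdges E).Reachable (T.leaf i) (T.leaf j)
  iseqv := ⟨fun _ => Reachable.refl _, fun h => h.symm, fun h h' => h.trans h'⟩

/-- The set of partitions of the labels induced by edge deletions in `T`. -/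
def parts {n : ℕ} (T : PhyloTree n) : Set (Setoid (Fin n)) :=
  {P | ∃ E : Set (Sym2 T.V), E ⊆ T.G.edgeSet ∧ induced T E = P}

/-- `a_k(T,F)`: the number of partitions with exactly `k` classes induced by both `T` and `F`. -/
noncomputable def commonCount {n : ℕ} (T F : PhyloTree n) (k : ℕ) : ℕ :=
  {P : Setoid (Fin n) | P ∈ parts T ∧ P ∈ parts F ∧ Nat.card (Quotient P) = k}.ncard

/-! ### Trees from parent functions -/

lemma isTree_of_parent {V : Type} [Finite V] (G : SimpleGraph V) (root : V) (par : V → V)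
    (d : V → ℕ) (hd : ∀ v, v ≠ root → d (par v) < d v)
    (hadj : ∀ u v, G.Adj u v ↔ (u ≠ root ∧ par u = v) ∨ (v ≠ root ∧ par v = u)) :
    G.IsTree := by
  classical
  have := Fintype.ofFinite V
  rw [isTree_iff_connected_and_card]
  constructor
  · have hr : ∀ m v, d v ≤ m → G.Reachable v root := by
      intro m
      induction m with
      | zero =>
        intro v hv
        by_cases h : v = root
        · rw [h]
        · have := hd v h
          omega
      | succ m ih =>
        intro v hv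
        by_cases h : v = root
        · rw [h]
        · have h1 := hd v h
          have h2 : G.Adj v (par v) := (hadj _ _).2 (Or.inl ⟨h, rfl⟩)
          exact h2.reachable.trans (ih _ (by omega))
    have : Nonempty V := ⟨root⟩
    exact ⟨fun u v => (hr _ u le_rfl).trans (hr _ v le_rfl).symm⟩
  · let f : {v : V // v ≠ root} → G.edgeSet :=
      fun v => ⟨s(v.1, par v.1), (hadj _ _).2 (Or.inl ⟨v.2, rfl⟩)⟩
    have hf : Function.Bijective f := by
      constructor
      · intro v w h
        have h1 : s(v.1, par v.1) = s(w.1, par w.1) := congrArg Subtype.val h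
        rw [Sym2.eq_iff] at h1
        rcases h1 with h1 | h1
        · exact Subtype.ext h1.1
        · exfalso
          have a1 := hd v.1 v.2
          have a2 := hd w.1 w.2
          rw [h1.2] at a1
          rw [← h1.1] at a2
          omega
      · rintro ⟨e, he⟩
        induction e using Sym2.ind with
        | _ u v =>
          have h1 : G.Adj u v := he
          rcases (hadj u v).1 h1 with ⟨h2, h3⟩ | ⟨h2, h3⟩
          · exact ⟨⟨u, h2⟩, Subtype.ext (by simp [f, h3])⟩
          · exact ⟨⟨v, h2⟩, Subtype.ext (by simp only [f, h3]; exact Sym2.eq_swap)⟩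
    have h1 := Nat.card_congr (Equiv.ofBijective f hf)
    rw [← h1, Nat.card_eq_fintype_card, Nat.card_eq_fintype_card, Fintype.card_subtype_compl,
      Fintype.card_subtype_eq]
    have : 0 < Fintype.card V := Fintype.card_pos_iff.2 ⟨root⟩
    omega

/-! ### Caterpillars -/

/-- Index of the spine vertex to which the leaf in position `p` is attached. -/
def sp (n : ℕ) (p : ℕ) : ℕ := min (p - 1) (n - 3)

lemma sp_lt {n : ℕ} (hn : 4 ≤ n) (p : ℕ) : sp n p < n - 2 := by
  unfold sp
  omega

lemma sp_mono {n : ℕ} {p q : ℕ} (h : p ≤ q) : sp n p ≤ sp n q := by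
  unfold sp
  omega

/-- Adjacency of the caterpillar. -/
def catAdj (n : ℕ) : Fin n ⊕ Fin (n - 2) → Fin n ⊕ Fin (n - 2) → Prop
  | .inl p, .inr s => sp n p = s
  | .inr s, .inl p => sp n p = s
  | .inr s, .inr t => (s : ℕ) + 1 = t ∨ (t : ℕ) + 1 = s
  | .inl _, .inl _ => False

def catG (n : ℕ) : SimpleGraph (Fin n ⊕ Fin (n - 2)) where
  Adj := catAdj n
  symm := ⟨by
    rintro (p | s) (q | t) h
    · exact h
    · exact h
    · exact h
    · exact Or.symm h⟩
  loopless := ⟨by
    rintro (p | s) h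
    · exact h
    · simp only [catAdj] at h
      omega⟩

lemma catG_isTree (n : ℕ) (hn : 4 ≤ n) : (catG n).IsTree := by
  refine isTree_of_parent (catG n) (Sum.inr ⟨0, by omega⟩)
    (fun v => match v with
      | .inl p => .inr ⟨sp n p, sp_lt hn p⟩
      | .inr s => .inr ⟨s - 1, by have := s.2; omega⟩)
    (fun v => match v with
      | .inl p => n
      | .inr s => s) ?_ ?_
  · rintro (p | s) h
    · show (sp n p) < n
      have := sp_lt hn p
      omega
    · show (s : ℕ) - 1 < s
      have : (s : ℕ) ≠ 0 := by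
        intro h0
        apply h
        congr 1
        exact Fin.ext h0
      omega
  · rintro (p | s) (q | t)
    · simp [catG, catAdj]
    · simp only [catG, catAdj]
      constructor
      · intro h
        left
        refine ⟨by simp, ?_⟩
        congr 1
        exact Fin.ext h
      · rintro (⟨_, h⟩ | ⟨_, h⟩)
        · have := congrArg (fun v => match v with | Sum.inl _ => 0 | Sum.inr t => (t : ℕ)) h
          simpa using this
        · simp at h
    · simp only [catG, catAdj]
      constructor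
      · intro h
        right
        refine ⟨by simp, ?_⟩
        congr 1
        exact Fin.ext h
      · rintro (⟨_, h⟩ | ⟨_, h⟩)
        · simp at h
        · have := congrArg (fun v => match v with | Sum.inl _ => 0 | Sum.inr t => (t : ℕ)) h
          simpa using this
    · simp only [catG, catAdj]
      simp only [ne_eq, Sum.inr.injEq, Fin.ext_iff]
      omega

lemma nbr_leaf (n : ℕ) (hn : 4 ≤ n) (p : Fin n) :
    ((catG n).neighborSet (Sum.inl p)).ncard = 1 := by
  rw [Set.ncard_eq_one]
  refine ⟨Sum.inr ⟨sp n p, sp_lt hn p⟩, ?_⟩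
  ext v
  simp only [mem_neighborSet, Set.mem_singleton_iff]
  rcases v with q | t
  · simp [catG, catAdj]
  · simp only [catG, catAdj, Sum.inr.injEq, Fin.ext_iff]
    omega

lemma nbr_spine (n : ℕ) (hn : 4 ≤ n) (s : Fin (n - 2)) :
    ((catG n).neighborSet (Sum.inr s)).ncard = 3 := by
  have hs := s.2
  rw [Set.ncard_eq_three]
  by_cases h0 : (s : ℕ) = 0
  · refine ⟨Sum.inl ⟨0, by omega⟩, Sum.inl ⟨1, by omega⟩, Sum.inr ⟨1, by omega⟩, by simp,
      by simp, by simp, ?_⟩
    ext v
    simp only [mem_neighborSet, Set.mem_insert_iff, Set.mem_singleton_iff]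
    rcases v with q | t
    · simp only [catG, catAdj, sp, Sum.inl.injEq, Fin.ext_iff, reduceCtorEq, or_false]
      have := q.2
      omega
    · simp only [catG, catAdj, Sum.inr.injEq, Fin.ext_iff, reduceCtorEq, false_or]
      omega
  · by_cases h1 : (s : ℕ) = n - 3
    · refine ⟨Sum.inl ⟨n - 2, by omega⟩, Sum.inl ⟨n - 1, by omega⟩, Sum.inr ⟨n - 4, by omega⟩,
        by simp; omega, by simp, by simp, ?_⟩
      ext v
      simp only [mem_neighborSet, Set.mem_insert_iff, Set.mem_singleton_iff]
      rcases v with q | t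
      · simp only [catG, catAdj, sp, Sum.inl.injEq, Fin.ext_iff, reduceCtorEq, or_false]
        have := q.2
        omega
      · simp only [catG, catAdj, Sum.inr.injEq, Fin.ext_iff, reduceCtorEq, false_or]
        have := t.2
        omega
    · refine ⟨Sum.inl ⟨s + 1, by omega⟩, Sum.inr ⟨s - 1, by omega⟩, Sum.inr ⟨s + 1, by omega⟩,
        by simp, by simp, by simp, ?_⟩
      ext v
      simp only [mem_neighborSet, Set.mem_insert_iff, Set.mem_singleton_iff]
      rcases v with q | t
      · simp only [catG, catAdj, sp, Sum.inl.injEq, Fin.ext_iff, reduceCtorEq, or_false]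
        have := q.2
        omega
      · simp only [catG, catAdj, Sum.inr.injEq, Fin.ext_iff, reduceCtorEq, false_or]
        have := t.2
        omega

/-- The caterpillar in which the leaf labelled `i` is in position `σ i`. -/
def cat (n : ℕ) (hn : 4 ≤ n) (σ : Equiv.Perm (Fin n)) : PhyloTree n where
  V := Fin n ⊕ Fin (n - 2)
  fin := inferInstance
  G := catG n
  isTree := catG_isTree n hn
  deg := by
    rintro (p | s)
    · exact Or.inl (nbr_leaf n hn p)
    · exact Or.inr (nbr_spine n hn s)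
  leaf := fun i => Sum.inl (σ i)
  leaf_inj := fun i j h => σ.injective (Sum.inl_injective h)
  leaf_range := by
    rintro (p | s)
    · simp only [nbr_leaf n hn p, true_iff]
      exact ⟨σ.symm p, by simp⟩
    · simp [nbr_spine n hn s]

lemma reach_inv {V : Type} {H : SimpleGraph V} {α : Type} (f : V → α)
    (hf : ∀ u v, H.Adj u v → f u = f v) {x y : V} (h : H.Reachable x y) : f x = f y := by
  obtain ⟨w⟩ := h
  induction w with
  | nil => rfl
  | cons h _ ih => exact (hf _ _ h).trans ih

section Cat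

variable {n : ℕ} (hn : 4 ≤ n) (E : Set (Sym2 (Fin n ⊕ Fin (n - 2))))

lemma pend_of_reach {p q : Fin n} (hpq : p ≠ q)
    (h : ((catG n).deleteEdges E).Reachable (Sum.inl p) (Sum.inl q)) :
    s(Sum.inl p, Sum.inr ⟨sp n p, sp_lt hn p⟩) ∉ E := by
  intro hE
  have h1 := reach_inv (H := (catG n).deleteEdges E) (fun v => v = Sum.inl p) (by
    intro u v huv
    rw [deleteEdges_adj] at huv
    obtain ⟨h2, h3⟩ := huv
    have key : ∀ w, (catG n).Adj (Sum.inl p) w → s(Sum.inl p, w) ∈ E := by
      intro w hw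
      rcases w with w | w
      · exact absurd hw (by simp [catG, catAdj])
      · have : (⟨sp n p, sp_lt hn p⟩ : Fin (n - 2)) = w := Fin.ext hw
        rw [← this]
        exact hE
    have hu : u ≠ Sum.inl p := by
      rintro rfl
      exact h3 (key _ h2)
    have hv : v ≠ Sum.inl p := by
      rintro rfl
      rw [Sym2.eq_swap] at h3
      exact h3 (key _ h2.symm)
    simp [hu, hv]) h
  simp only [Sum.inl.injEq, eq_iff_iff] at h1
  exact hpq (h1.1 trivial).symm

lemma spine_of_reach {p q : Fin n} {u : ℕ} (hu : u + 1 < n - 2) (h1 : sp n p ≤ u)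
    (h2 : u < sp n q)
    (h : ((catG n).deleteEdges E).Reachable (Sum.inl p) (Sum.inl q)) :
    s(Sum.inr ⟨u, by omega⟩, Sum.inr ⟨u + 1, hu⟩) ∉ E := by
  intro hE
  have h3 := reach_inv (H := (catG n).deleteEdges E)
    (fun v => (match v with | Sum.inl p => sp n p | Sum.inr s => (s : ℕ)) ≤ u) (by
    intro x y hxy
    rw [deleteEdges_adj] at hxy
    obtain ⟨h4, h5⟩ := hxy
    rcases x with x | x <;> rcases y with y | y
    · exact absurd h4 (by simp [catG, catAdj])
    · have : sp n x = y := h4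
      simp [this]
    · have : sp n y = x := h4
      simp [this]
    · have h6 : (x : ℕ) + 1 = y ∨ (y : ℕ) + 1 = x := h4
      simp only [eq_iff_iff]
      by_contra hcon
      rcases h6 with h6 | h6
      · have hx : x = ⟨u, by omega⟩ := Fin.ext (by simp only; omega)
        have hy : y = ⟨u + 1, hu⟩ := Fin.ext (by simp only; omega)
        rw [hx, hy] at h5
        exact h5 hE
      · have hy : y = ⟨u, by omega⟩ := Fin.ext (by simp only; omega)
        have hx : x = ⟨u + 1, hu⟩ := Fin.ext (by simp only; omega)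
        rw [hx, hy, Sym2.eq_swap] at h5
        exact h5 hE) h
  simp only [eq_iff_iff] at h3
  omega

lemma reach_spine (u : ℕ) : ∀ (k : ℕ) (h : u + k < n - 2),
    (∀ w (hw : w + 1 < n - 2), u ≤ w → w < u + k →
      s(Sum.inr ⟨w, by omega⟩, Sum.inr ⟨w + 1, hw⟩) ∉ E) →
    ((catG n).deleteEdges E).Reachable (Sum.inr ⟨u, by omega⟩) (Sum.inr ⟨u + k, h⟩) := by
  intro k
  induction k with
  | zero => intro h _; exact Reachable.refl _
  | succ k ih =>
    intro h hE
    refine (ih (by omega) (fun w hw h1 h2 => hE w hw h1 (by omega))).trans ?_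
    apply Adj.reachable
    rw [deleteEdges_adj]
    refine ⟨Or.inl rfl, hE (u + k) h (by omega) (by omega)⟩

lemma reach_of {p q : Fin n} (hpq : sp n p ≤ sp n q)
    (h1 : s(Sum.inl p, Sum.inr ⟨sp n p, sp_lt hn p⟩) ∉ E)
    (h2 : s(Sum.inl q, Sum.inr ⟨sp n q, sp_lt hn q⟩) ∉ E)
    (h3 : ∀ w (hw : w + 1 < n - 2), sp n p ≤ w → w < sp n q →
      s(Sum.inr ⟨w, by omega⟩, Sum.inr ⟨w + 1, hw⟩) ∉ E) :
    ((catG n).deleteEdges E).Reachable (Sum.inl p) (Sum.inl q) := by
  have a1 : ((catG n).deleteEdges E).Reachable (Sum.inl p) (Sum.inr ⟨sp n p, sp_lt hn p⟩) := by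
    apply Adj.reachable
    rw [deleteEdges_adj]
    exact ⟨rfl, h1⟩
  have a2 : ((catG n).deleteEdges E).Reachable (Sum.inl q) (Sum.inr ⟨sp n q, sp_lt hn q⟩) := by
    apply Adj.reachable
    rw [deleteEdges_adj]
    exact ⟨rfl, h2⟩
  have hq := sp_lt hn q
  obtain ⟨k, hk⟩ := Nat.exists_eq_add_of_le hpq
  have a3 := reach_spine E (sp n p) k (by omega) (fun w hw h4 h5 => h3 w hw h4 (by omega))
  have a4 : (⟨sp n p + k, by omega⟩ : Fin (n - 2)) = ⟨sp n q, hq⟩ := Fin.ext hk.symm
  rw [a4] at a3
  exact (a1.trans a3).trans a2.symm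

end Cat

/-- The non-crossing condition describing the partitions induced by a caterpillar. -/
def NC {n : ℕ} (σ : Equiv.Perm (Fin n)) (P : Setoid (Fin n)) : Prop :=
  ∀ a b c d : Fin n, P a c → P b d → b ≠ d → σ a < σ b → σ b < σ c → P a b

lemma nc_of_parts {n : ℕ} (hn : 4 ≤ n) (σ : Equiv.Perm (Fin n)) (P : Setoid (Fin n))
    (h : P ∈ parts (cat n hn σ)) : NC σ P := by
  obtain ⟨E, _, rfl⟩ := h
  intro a b c d hac hbd hbd' hab hbc
  have hac' : ((catG n).deleteEdges E).Reachable (Sum.inl (σ a)) (Sum.inl (σ c)) := hac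
  have hbd2 : ((catG n).deleteEdges E).Reachable (Sum.inl (σ b)) (Sum.inl (σ d)) := hbd
  show ((catG n).deleteEdges E).Reachable (Sum.inl (σ a)) (Sum.inl (σ b))
  have hab' : (σ a : ℕ) < σ b := hab
  have hbc' : (σ b : ℕ) < σ c := hbc
  have m1 : sp n (σ a) ≤ sp n (σ b) := sp_mono hab'.le
  have m2 : sp n (σ b) ≤ sp n (σ c) := sp_mono hbc'.le
  refine reach_of hn E m1 ?_ ?_ ?_
  · exact pend_of_reach hn E (hab.trans hbc).ne hac'
  · exact pend_of_reach hn E (fun h => hbd' (σ.injective h)) hbd2
  · intro w hw h1 h2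
    exact spine_of_reach E hw h1 (by omega) hac'

/-- The edges deleted from the caterpillar to induce `P`. -/
def cutSet {n : ℕ} (hn : 4 ≤ n) (σ : Equiv.Perm (Fin n)) (P : Setoid (Fin n)) :
    Set (Sym2 (Fin n ⊕ Fin (n - 2))) :=
  {e | (∃ a : Fin n, (∀ b, P a b → b = a) ∧
      e = s(Sum.inl (σ a), Sum.inr ⟨sp n (σ a), sp_lt hn (σ a)⟩)) ∨
    (∃ (u : ℕ) (hu : u + 1 < n - 2), (∀ a c, P a c → sp n (σ a) ≤ u → sp n (σ c) ≤ u) ∧
      e = s(Sum.inr ⟨u, by omega⟩, Sum.inr ⟨u + 1, hu⟩))}

lemma pend_mem {n : ℕ} (hn : 4 ≤ n) (σ : Equiv.Perm (Fin n)) (P : Setoid (Fin n)) (a : Fin n) :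
    s(Sum.inl (σ a), Sum.inr ⟨sp n (σ a), sp_lt hn (σ a)⟩) ∈ cutSet hn σ P ↔
      ∀ b, P a b → b = a := by
  constructor
  · rintro (⟨a', h1, h2⟩ | ⟨u, hu, _, h2⟩)
    · rw [Sym2.eq_iff] at h2
      rcases h2 with ⟨h2, _⟩ | ⟨h2, _⟩
      · have : a = a' := σ.injective (Sum.inl_injective h2)
        rw [this]
        exact h1
      · simp at h2
    · rw [Sym2.eq_iff] at h2
      rcases h2 with ⟨h2, _⟩ | ⟨h2, _⟩ <;> simp at h2
  · intro h
    exact Or.inl ⟨a, h, rfl⟩

lemma spine_mem {n : ℕ} (hn : 4 ≤ n) (σ : Equiv.Perm (Fin n)) (P : Setoid (Fin n)) (u : ℕ)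
    (hu : u + 1 < n - 2) :
    s(Sum.inr ⟨u, by omega⟩, Sum.inr ⟨u + 1, hu⟩) ∈ cutSet hn σ P ↔
      ∀ a c, P a c → sp n (σ a) ≤ u → sp n (σ c) ≤ u := by
  constructor
  · rintro (⟨a', h1, h2⟩ | ⟨u', hu', h1, h2⟩)
    · rw [Sym2.eq_iff] at h2
      rcases h2 with ⟨h2, _⟩ | ⟨_, h2⟩ <;> simp at h2
    · rw [Sym2.eq_iff] at h2
      simp only [Sum.inr.injEq, Fin.ext_iff] at h2
      have : u = u' := by omega
      rw [this]
      exact h1
  · intro h
    exact Or.inr ⟨u, hu, h, rfl⟩

lemma parts_of_nc {n : ℕ} (hn : 4 ≤ n) (σ : Equiv.Perm (Fin n)) (P : Setoid (Fin n))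
    (h : NC σ P) : P ∈ parts (cat n hn σ) := by
  classical
  refine ⟨cutSet hn σ P, ?_, ?_⟩
  · rintro e (⟨a, _, rfl⟩ | ⟨u, hu, _, rfl⟩)
    · exact rfl
    · exact Or.inl rfl
  · have key : ∀ a c, σ a < σ c →
        (((catG n).deleteEdges (cutSet hn σ P)).Reachable (Sum.inl (σ a)) (Sum.inl (σ c)) ↔
          P a c) := by
      intro a c hac
      have hac' : (σ a : ℕ) < σ c := hac
      have hane : a ≠ c := fun h => by rw [h] at hac; exact lt_irrefl _ hac
      constructor
      · intro hr
        by_contra hP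
        have ha : ∃ a', P a a' ∧ a' ≠ a := by
          have := pend_of_reach hn (cutSet hn σ P) hac.ne hr
          rw [pend_mem] at this
          push Not at this
          exact this
        have hc : ∃ c', P c c' ∧ c' ≠ c := by
          have := pend_of_reach hn (cutSet hn σ P) hac.ne' hr.symm
          rw [pend_mem] at this
          push Not at this
          exact this
        obtain ⟨a', ha1, ha2⟩ := ha
        obtain ⟨c', hc1, hc2⟩ := hc
        obtain ⟨x, hx, hmax⟩ := Finset.exists_max_image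
          (Finset.univ.filter (fun y => P a y)) (fun y => σ y)
          ⟨a, by simp⟩
        have hax : P a x := by simpa using hx
        have hmax' : ∀ y, P a y → σ y ≤ σ x := fun y hy => hmax y (by simpa using hy)
        have hx' : ∃ x', P x x' ∧ x' ≠ x := by
          by_cases hxa : x = a
          · rw [hxa]
            exact ⟨a', ha1, ha2⟩
          · exact ⟨a, P.symm hax, fun h => hxa h.symm⟩
        obtain ⟨x', hx1, hx2⟩ := hx'
        have b1 : (σ a : ℕ) ≤ σ x := hmax' a (P.refl a)
        have b2 : (σ a' : ℕ) ≤ σ x := hmax' a' ha1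
        have b3 : (σ a : ℕ) ≠ σ a' := fun h => ha2 (σ.injective (Fin.ext h)).symm
        have hx3 : 1 ≤ (σ x : ℕ) := by omega
        have hxc : σ x < σ c := by
          by_contra hcon
          rw [not_lt] at hcon
          rcases hcon.lt_or_eq with hcon | hcon
          · exact hP (h a c x c' hax hc1 (fun h => hc2 h.symm) hac hcon)
          · apply hP
            rw [σ.injective hcon]
            exact hax
        have hxc' : (σ x : ℕ) < σ c := hxc
        have hcn := (σ c).2
        by_cases hcase : sp n (σ x) < sp n (σ c)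
        · have hsc := sp_lt hn (σ c : ℕ)
          have hu : sp n (σ x) + 1 < n - 2 := by omega
          have := spine_of_reach (cutSet hn σ P) hu (sp_mono b1) hcase hr
          rw [spine_mem] at this
          apply this
          intro b d hbd hb
          by_contra hd
          rw [not_le] at hd
          have hxd : σ x < σ d := by
            by_contra hcon
            rw [not_lt] at hcon
            have : sp n (σ d) ≤ sp n (σ x) := sp_mono hcon
            omega
          have hnd : ¬ P a d := fun h => absurd (hmax' d h) (not_le.2 hxd)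
          rcases lt_trichotomy (σ b) (σ x) with hbx | hbx | hbx
          · have := h b x d x' hbd hx1 (fun h => hx2 h.symm) hbx hxd
            exact hnd (P.trans hax (P.trans (P.symm this) hbd))
          · have : b = x := σ.injective hbx
            rw [this] at hbd
            exact hnd (P.trans hax hbd)
          · have hbx' : (σ x : ℕ) < σ b := hbx
            unfold sp at hb hd
            omega
        · have h1 : (σ x : ℕ) = n - 2 ∧ (σ c : ℕ) = n - 1 := by
            unfold sp at hcase
            omega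
          have h2 := (σ c').2
          have h3 : (σ c' : ℕ) ≠ σ c := fun h => hc2 (σ.injective (Fin.ext h))
          have h4 : (σ c' : ℕ) ≠ σ x := by
            intro h
            have : c' = x := σ.injective (Fin.ext h)
            rw [this] at hc1
            exact hP (P.trans hax (P.symm hc1))
          have h5 : σ c' < σ x := by
            show (σ c' : ℕ) < σ x
            omega
          have := h c' x c x' (P.symm hc1) hx1 (fun h => hx2 h.symm) h5 hxc
          exact hP (P.trans hax (P.trans (P.symm this) (P.symm hc1)))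
      · intro hP
        refine reach_of hn _ (sp_mono hac'.le) ?_ ?_ ?_
        · rw [pend_mem]
          intro h
          exact hane (h c hP).symm
        · rw [pend_mem]
          intro h
          exact hane (h a (P.symm hP))
        · intro w hw h1 h2
          rw [spine_mem]
          intro h
          have := h a c hP h1
          omega
    apply Setoid.ext
    intro a c
    show ((catG n).deleteEdges (cutSet hn σ P)).Reachable (Sum.inl (σ a)) (Sum.inl (σ c)) ↔ P a c
    rcases lt_trichotomy (σ a) (σ c) with hac | hac | hac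
    · exact key a c hac
    · have : a = c := σ.injective hac
      rw [this]
      exact ⟨fun _ => P.refl _, fun _ => Reachable.refl _⟩
    · have := key c a hac
      exact ⟨fun h => P.symm (this.1 h.symm), fun h => (this.2 (P.symm h)).symm⟩

lemma parts_iff {n : ℕ} (hn : 4 ≤ n) (σ : Equiv.Perm (Fin n)) (P : Setoid (Fin n)) :
    P ∈ parts (cat n hn σ) ↔ NC σ P :=
  ⟨nc_of_parts hn σ P, parts_of_nc hn σ P⟩

/-! ### Numbers of classes -/

section Count

instance finSetoid (n : ℕ) : Finite (Setoid (Fin n)) := by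
  refine Finite.of_injective (fun P : Setoid (Fin n) => (fun i j => P i j)) ?_
  intro P Q h
  apply Setoid.ext
  intro i j
  have := congrFun (congrFun h i) j
  simp only at this
  rw [this]

open Classical in
/-- The minimal elements of the classes. -/
noncomputable def Mn {n : ℕ} (P : Setoid (Fin n)) : Finset (Fin n) :=
  Finset.univ.filter (fun i => ∀ j, P i j → i ≤ j)

open Classical in
/-- The singleton classes. -/
noncomputable def Sg {n : ℕ} (P : Setoid (Fin n)) : Finset (Fin n) :=
  Finset.univ.filter (fun i => ∀ j, P i j → j = i)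

lemma mem_Mn {n : ℕ} (P : Setoid (Fin n)) (i : Fin n) : i ∈ Mn P ↔ ∀ j, P i j → i ≤ j := by
  simp [Mn]

lemma mem_Sg {n : ℕ} (P : Setoid (Fin n)) (i : Fin n) : i ∈ Sg P ↔ ∀ j, P i j → j = i := by
  simp [Sg]

lemma exists_min {n : ℕ} (P : Setoid (Fin n)) (e : Fin n) : ∃ i, i ∈ Mn P ∧ P e i ∧ i ≤ e := by
  classical
  obtain ⟨x, hx, hmin⟩ := Finset.exists_min_image
    (Finset.univ.filter (fun y => P e y)) id ⟨e, by simp⟩
  have hex : P e x := by simpa using hx
  have hmin' : ∀ y, P e y → x ≤ y := fun y hy => hmin y (by simpa using hy)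
  refine ⟨x, ?_, hex, hmin' e (P.refl e)⟩
  rw [mem_Mn]
  intro j hj
  exact hmin' j (P.trans hex hj)

lemma card_quot {n : ℕ} (P : Setoid (Fin n)) : Nat.card (Quotient P) = (Mn P).card := by
  classical
  have : Function.Bijective (fun i : (Mn P) => (Quotient.mk P i.1)) := by
    constructor
    · intro i j hij
      have h1 : P i.1 j.1 := Quotient.exact hij
      have hi := (mem_Mn P i.1).1 i.2 _ h1
      have hj := (mem_Mn P j.1).1 j.2 _ (P.symm h1)
      exact Subtype.ext (le_antisymm hi hj)
    · intro q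
      induction q using Quotient.inductionOn with
      | _ e =>
        obtain ⟨i, hi, hei, _⟩ := exists_min P e
        exact ⟨⟨i, hi⟩, Quotient.sound (P.symm hei)⟩
  rw [← Nat.card_congr (Equiv.ofBijective _ this), Nat.card_eq_fintype_card, Fintype.card_coe]

lemma Sg_subset_Mn {n : ℕ} (P : Setoid (Fin n)) : Sg P ⊆ Mn P := by
  intro i hi
  rw [mem_Mn]
  intro j hj
  rw [(mem_Sg P i).1 hi j hj]

end Count

/-! ### The rotated caterpillar -/

section Rot

variable {s : ℕ}

/-- Exchange the two halves of `Fin (2 * s)`. -/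
def rotF (s : ℕ) (i : Fin (2 * s)) : Fin (2 * s) :=
  if h : (i : ℕ) < s then ⟨i + s, by omega⟩ else ⟨i - s, by have := i.2; omega⟩

lemma rotF_lo (i : Fin (2 * s)) (h : (i : ℕ) < s) : ((rotF s i : Fin (2 * s)) : ℕ) = i + s := by
  unfold rotF
  rw [dif_pos h]

lemma rotF_hi (i : Fin (2 * s)) (h : s ≤ (i : ℕ)) : ((rotF s i : Fin (2 * s)) : ℕ) = i - s := by
  unfold rotF
  rw [dif_neg (by omega)]

lemma rotF_invol (s : ℕ) : Function.Involutive (rotF s) := by
  intro i
  apply Fin.ext
  have h0 := i.2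
  by_cases h : (i : ℕ) < s
  · have h1 := rotF_lo i h
    rw [rotF_hi _ (by omega), h1]
    omega
  · have h1 := rotF_hi i (by omega)
    rw [rotF_lo _ (by omega), h1]
    omega

def rot (s : ℕ) : Equiv.Perm (Fin (2 * s)) := (rotF_invol s).toPerm

lemma rot_lo (i : Fin (2 * s)) (h : (i : ℕ) < s) : ((rot s i : Fin (2 * s)) : ℕ) = i + s :=
  rotF_lo i h

lemma rot_hi (i : Fin (2 * s)) (h : s ≤ (i : ℕ)) : ((rot s i : Fin (2 * s)) : ℕ) = i - s :=
  rotF_hi i h

/-- A class meets both halves. -/
def Cr (P : Setoid (Fin (2 * s))) : Prop := ∃ a c, P a c ∧ (a : ℕ) < s ∧ s ≤ (c : ℕ)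

/-- Compatibility with both caterpillars. -/
def Ok (P : Setoid (Fin (2 * s))) : Prop := NC (Equiv.refl _) P ∧ NC (rot s) P

lemma ok_lt {P : Setoid (Fin (2 * s))} (h : Ok P) {a b c d : Fin (2 * s)} (hac : P a c)
    (hbd : P b d) (hne : b ≠ d) (h1 : (a : ℕ) < b) (h2 : (b : ℕ) < c) : P a b :=
  h.1 a b c d hac hbd hne h1 h2

lemma cross_all {P : Setoid (Fin (2 * s))} (h : Ok P) {a c : Fin (2 * s)} (hac : P a c)
    (ha : (a : ℕ) < s) (hc : s ≤ (c : ℕ)) {x : Fin (2 * s)} (hx : x ∉ Sg P) : P a x := by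
  rw [mem_Sg] at hx
  push Not at hx
  obtain ⟨y, hxy, hyx⟩ := hx
  have hca := P.symm hac
  by_cases h1 : x = a
  · rw [h1]
  by_cases h2 : x = c
  · rw [h2]
    exact hac
  have h1' : (x : ℕ) ≠ a := fun h => h1 (Fin.ext h)
  have h2' : (x : ℕ) ≠ c := fun h => h2 (Fin.ext h)
  by_cases h3 : (x : ℕ) < a
  · refine P.trans hac (h.2 c x a y hca hxy hyx.symm ?_ ?_)
    · show ((rot s c : Fin (2 * s)) : ℕ) < (rot s x : Fin (2 * s))
      rw [rot_hi c hc, rot_lo x (by omega)]
      have := c.2
      omega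
    · show ((rot s x : Fin (2 * s)) : ℕ) < (rot s a : Fin (2 * s))
      rw [rot_lo a ha, rot_lo x (by omega)]
      omega
  by_cases h4 : (x : ℕ) < c
  · exact ok_lt h hac hxy hyx.symm (by omega) h4
  · refine P.trans hac (h.2 c x a y hca hxy hyx.symm ?_ ?_)
    · show ((rot s c : Fin (2 * s)) : ℕ) < (rot s x : Fin (2 * s))
      rw [rot_hi c hc, rot_hi x (by omega)]
      omega
    · show ((rot s x : Fin (2 * s)) : ℕ) < (rot s a : Fin (2 * s))
      rw [rot_lo a ha, rot_hi x (by omega)]
      have := x.2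
      omega

lemma cross_iff {P : Setoid (Fin (2 * s))} (h : Ok P) (hc : Cr P) (x y : Fin (2 * s)) :
    P x y ↔ x = y ∨ (x ∉ Sg P ∧ y ∉ Sg P) := by
  obtain ⟨a, c, hac, ha, hc⟩ := hc
  constructor
  · intro hxy
    by_cases hne : x = y
    · exact Or.inl hne
    · right
      constructor
      · intro hx
        exact hne ((mem_Sg P x).1 hx y hxy).symm
      · intro hy
        exact hne ((mem_Sg P y).1 hy x (P.symm hxy))
  · rintro (rfl | ⟨hx, hy⟩)
    · exact P.refl _
    · exact P.trans (P.symm (cross_all h hac ha hc hx)) (cross_all h hac ha hc hy)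

lemma cross_card {P : Setoid (Fin (2 * s))} (h : Ok P) (hcr : Cr P) :
    (Mn P).card = (Sg P).card + 1 := by
  classical
  have hcr' := hcr
  obtain ⟨a, c, hac, ha, hc⟩ := hcr
  obtain ⟨m, hm, ham, _⟩ := exists_min P a
  have hma : P m a := P.symm ham
  have hmS : m ∉ Sg P := by
    intro hm'
    have h1 := (mem_Sg P m).1 hm' a hma
    have h2 := (mem_Sg P m).1 hm' c (P.trans hma hac)
    rw [← h2] at h1
    rw [h1] at ha
    omega
  have : Mn P = insert m (Sg P) := by
    ext i
    rw [Finset.mem_insert]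
    constructor
    · intro hi
      by_cases hiS : i ∈ Sg P
      · exact Or.inr hiS
      · left
        have h1 : P m i := P.trans hma (cross_all h hac ha hc hiS)
        exact le_antisymm ((mem_Mn P i).1 hi _ (P.symm h1)) ((mem_Mn P m).1 hm _ h1)
    · rintro (rfl | hi)
      · exact hm
      · exact Sg_subset_Mn P hi
  rw [this, Finset.card_insert_of_notMem hmS]

/-- The two families and the total. -/
def AA (s k : ℕ) : Set (Setoid (Fin (2 * s))) := {P | Ok P ∧ Cr P ∧ (Mn P).card = k}

def BB (s k : ℕ) : Set (Setoid (Fin (2 * s))) := {P | Ok P ∧ ¬ Cr P ∧ (Mn P).card = k}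

lemma AA_upper (k : ℕ) (hk : 1 ≤ k) : (AA s k).ncard ≤ (2 * s).choose (k - 1) := by
  classical
  have h1 : ((Finset.powersetCard (k - 1) (Finset.univ : Finset (Fin (2 * s)))) :
      Set (Finset (Fin (2 * s)))).ncard = (2 * s).choose (k - 1) := by
    rw [Set.ncard_coe_finset, Finset.card_powersetCard, Finset.card_univ, Fintype.card_fin]
  rw [← h1]
  refine Set.ncard_le_ncard_of_injOn Sg ?_ ?_ (Finset.finite_toSet _)
  · rintro P ⟨h2, h3, h4⟩
    have := cross_card h2 h3
    rw [Finset.mem_coe, Finset.mem_powersetCard]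
    exact ⟨Finset.subset_univ _, by omega⟩
  · rintro P ⟨h2, h3, h4⟩ P' ⟨h2', h3', h4'⟩ hPP
    apply Setoid.ext
    intro x y
    rw [cross_iff h2 h3, cross_iff h2' h3', hPP]

/-- All elements outside `S` form one class. -/
def bigS (S : Finset (Fin (2 * s))) : Setoid (Fin (2 * s)) where
  r i j := i = j ∨ (i ∉ S ∧ j ∉ S)
  iseqv := by
    refine ⟨fun i => Or.inl rfl, ?_, ?_⟩
    · rintro i j (h | ⟨h1, h2⟩)
      · exact Or.inl h.symm
      · exact Or.inr ⟨h2, h1⟩
    · rintro i j k (rfl | ⟨h1, h2⟩) h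
      · exact h
      · rcases h with rfl | ⟨h3, h4⟩
        · exact Or.inr ⟨h1, h2⟩
        · exact Or.inr ⟨h1, h4⟩

lemma bigS_nc (σ : Equiv.Perm (Fin (2 * s))) (S : Finset (Fin (2 * s))) : NC σ (bigS S) := by
  rintro a b c d hac hbd hne h1 h2
  rcases hac with rfl | ⟨ha, hc⟩
  · exact absurd (h1.trans h2) (lt_irrefl _)
  · rcases hbd with hbd | ⟨hb, hd⟩
    · exact absurd hbd hne
    · exact Or.inr ⟨ha, hb⟩

lemma exists_lo (S : Finset (Fin (2 * s))) (hS : S.card < s) :
    ∃ a : Fin (2 * s), (a : ℕ) < s ∧ a ∉ S := by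
  by_contra hcon
  push Not at hcon
  have := Finset.card_le_card_of_injOn (s := (Finset.univ : Finset (Fin s))) (t := S)
    (fun a => (⟨a, by have := a.2; omega⟩ : Fin (2 * s)))
    (fun a _ => hcon _ a.2) (fun a _ b _ h => Fin.ext (by simpa using h))
  rw [Finset.card_univ, Fintype.card_fin] at this
  omega

lemma exists_hi (S : Finset (Fin (2 * s))) (hS : S.card < s) :
    ∃ a : Fin (2 * s), s ≤ (a : ℕ) ∧ a ∉ S := by
  by_contra hcon
  push Not at hcon
  have := Finset.card_le_card_of_injOn (s := (Finset.univ : Finset (Fin s))) (t := S)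
    (fun a => (⟨a + s, by have := a.2; omega⟩ : Fin (2 * s)))
    (fun a _ => hcon _ (by simp)) (fun a _ b _ h => Fin.ext (by simpa using h))
  rw [Finset.card_univ, Fintype.card_fin] at this
  omega

lemma AA_lower (k : ℕ) (hk : 1 ≤ k) (hks : k ≤ s) : (2 * s).choose (k - 1) ≤ (AA s k).ncard := by
  classical
  have h1 : ((Finset.powersetCard (k - 1) (Finset.univ : Finset (Fin (2 * s)))) :
      Set (Finset (Fin (2 * s)))).ncard = (2 * s).choose (k - 1) := by
    rw [Set.ncard_coe_finset, Finset.card_powersetCard, Finset.card_univ, Fintype.card_fin]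
  rw [← h1]
  have key : ∀ S ∈ Finset.powersetCard (k - 1) (Finset.univ : Finset (Fin (2 * s))),
      Cr (bigS S) ∧ Sg (bigS S) = S := by
    intro S hS
    rw [Finset.mem_powersetCard] at hS
    obtain ⟨a, ha1, ha2⟩ := exists_lo S (by omega)
    obtain ⟨c, hc1, hc2⟩ := exists_hi S (by omega)
    refine ⟨⟨a, c, Or.inr ⟨ha2, hc2⟩, ha1, hc1⟩, ?_⟩
    ext i
    rw [mem_Sg]
    constructor
    · intro h
      by_contra hi
      have h2 : a = i := h a (Or.inr ⟨hi, ha2⟩)
      have h3 : c = i := h c (Or.inr ⟨hi, hc2⟩)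
      rw [← h3] at h2
      rw [h2] at ha1
      omega
    · rintro hi j (rfl | ⟨h2, _⟩)
      · rfl
      · exact absurd hi h2
  refine Set.ncard_le_ncard_of_injOn bigS ?_ ?_ (Set.toFinite _)
  · intro S hS
    have hS' : S ∈ Finset.powersetCard (k - 1) (Finset.univ : Finset (Fin (2 * s))) := hS
    obtain ⟨h2, h3⟩ := key S hS'
    have hok : Ok (bigS S) := ⟨bigS_nc _ S, bigS_nc _ S⟩
    refine ⟨hok, h2, ?_⟩
    rw [cross_card hok h2, h3, (Finset.mem_powersetCard.1 hS').2]
    omega
  · intro S hS S' hS' h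
    rw [← (key S hS).2, ← (key S' hS').2, h]

lemma nc_lt {P : Setoid (Fin (2 * s))} (hz : ¬ Cr P) {a c : Fin (2 * s)} (h : P a c)
    (hc : s ≤ (c : ℕ)) : s ≤ (a : ℕ) := by
  by_contra ha
  exact hz ⟨a, c, h, by omega, hc⟩

lemma BB_inj_aux (hs : 1 ≤ s) {P P' : Setoid (Fin (2 * s))} (h : Ok P) (hc : ¬ Cr P)
    (hM : Mn P = Mn P')
    (hS : Sg P \ {⟨0, by omega⟩, ⟨s, by omega⟩} = Sg P' \ {⟨0, by omega⟩, ⟨s, by omega⟩})
    {e r r' : Fin (2 * s)} (hr : r ∈ Mn P) (her : P e r) (hr' : r' ∈ Mn P')
    (her' : P' e r') (hre' : r' ≤ e) : r' ≤ r := by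
  by_contra hcon
  rw [not_le] at hcon
  have hlt : (r : ℕ) < r' := hcon
  have hle' : (r' : ℕ) ≤ e := hre'
  by_cases heM : e ∈ Mn P
  · have : e ≤ r := (mem_Mn P e).1 heM r her
    have : (e : ℕ) ≤ r := this
    omega
  · have hne : r' ≠ e := by
      rintro rfl
      rw [← hM] at hr'
      exact heM hr'
    have hne' : (r' : ℕ) ≠ e := fun h => hne (Fin.ext h)
    have hnS' : r' ∉ Sg P' := fun h1 => hne ((mem_Sg P' r').1 h1 e (P'.symm her')).symm
    have hnS : r' ∉ Sg P := by
      intro h1
      by_cases hzm : r' ∈ ({⟨0, by omega⟩, ⟨s, by omega⟩} : Finset (Fin (2 * s)))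
      · rw [Finset.mem_insert, Finset.mem_singleton] at hzm
        rcases hzm with hzm | hzm
        · have : (r' : ℕ) = 0 := congrArg Fin.val hzm
          omega
        · have h2 : (r' : ℕ) = s := congrArg Fin.val hzm
          have h3 := nc_lt hc (P.symm her) (by omega)
          omega
      · have h2 : r' ∈ Sg P \ {⟨0, by omega⟩, ⟨s, by omega⟩} := Finset.mem_sdiff.2 ⟨h1, hzm⟩
        rw [hS] at h2
        exact hnS' (Finset.mem_sdiff.1 h2).1
    rw [mem_Sg] at hnS
    push Not at hnS
    obtain ⟨d, hd, hdr⟩ := hnS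
    have h4 : P r r' := ok_lt h (P.symm her) hd hdr.symm hlt (by omega)
    rw [← hM] at hr'
    have h5 : r' ≤ r := (mem_Mn P r').1 hr' r (P.symm h4)
    exact absurd h5 (not_le.2 hcon)

lemma BB_upper (hs : 1 ≤ s) (k : ℕ) :
    (BB s k).ncard ≤ (2 * s - 2).choose (k - 2) * 2 ^ (k - 2) := by
  classical
  let z : Fin (2 * s) := ⟨0, by omega⟩
  let m : Fin (2 * s) := ⟨s, by omega⟩
  have hzm : z ≠ m := by
    intro h
    have : 0 = s := congrArg Fin.val h
    omega
  have hzM : ∀ P : Setoid (Fin (2 * s)), z ∈ Mn P := by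
    intro P
    rw [mem_Mn]
    intro j _
    exact Nat.zero_le _
  have hmM : ∀ P : Setoid (Fin (2 * s)), ¬ Cr P → m ∈ Mn P := by
    intro P hP
    rw [mem_Mn]
    intro j hj
    exact nc_lt hP (P.symm hj) le_rfl
  let T : Finset (Σ _ : Finset (Fin (2 * s)), Finset (Fin (2 * s))) :=
    (Finset.powersetCard (k - 2) (Finset.univ \ {z, m})).sigma (fun X => X.powerset)
  have hT : T.card = (2 * s - 2).choose (k - 2) * 2 ^ (k - 2) := by
    rw [Finset.card_sigma]
    have h1 : ∀ X ∈ Finset.powersetCard (k - 2) ((Finset.univ : Finset (Fin (2 * s))) \ {z, m}),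
        X.powerset.card = 2 ^ (k - 2) := by
      intro X hX
      rw [Finset.card_powerset, (Finset.mem_powersetCard.1 hX).2]
    rw [Finset.sum_congr rfl h1, Finset.sum_const, Finset.card_powersetCard,
      Finset.card_sdiff_of_subset (Finset.subset_univ _), Finset.card_univ, Fintype.card_fin,
      Finset.card_pair hzm, smul_eq_mul]
  rw [← hT, ← Set.ncard_coe_finset]
  refine Set.ncard_le_ncard_of_injOn
    (fun P => (⟨Mn P \ {z, m}, Sg P \ {z, m}⟩ : Σ _ : Finset (Fin (2 * s)), Finset (Fin (2 * s))))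
    ?_ ?_ (Finset.finite_toSet _)
  · rintro P ⟨h1, h2, h3⟩
    rw [Finset.mem_coe, Finset.mem_sigma, Finset.mem_powersetCard, Finset.mem_powerset]
    refine ⟨⟨Finset.sdiff_subset_sdiff (Finset.subset_univ _) (Finset.Subset.refl _), ?_⟩,
      Finset.sdiff_subset_sdiff (Sg_subset_Mn P) (Finset.Subset.refl _)⟩
    rw [Finset.card_sdiff_of_subset, h3, Finset.card_pair hzm]
    intro x hx
    rw [Finset.mem_insert, Finset.mem_singleton] at hx
    rcases hx with rfl | rfl
    · exact hzM P
    · exact hmM P h2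
  · rintro P ⟨h1, h2, h3⟩ P' ⟨h1', h2', h3'⟩ hPP
    simp only [Sigma.mk.injEq, heq_eq_eq] at hPP
    obtain ⟨hX, hY⟩ := hPP
    have hM : Mn P = Mn P' := by
      ext x
      by_cases hx : x ∈ ({z, m} : Finset (Fin (2 * s)))
      · rw [Finset.mem_insert, Finset.mem_singleton] at hx
        rcases hx with rfl | rfl
        · simp [hzM]
        · simp [hmM _ h2, hmM _ h2']
      · have := Finset.ext_iff.1 hX x
        rw [Finset.mem_sdiff, Finset.mem_sdiff] at this
        tauto
    have key : ∀ e r r', r ∈ Mn P → P e r → r ≤ e → r' ∈ Mn P' → P' e r' → r' ≤ e → r = r' := by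
      intro e r r' a1 a2 a3 a4 a5 a6
      exact le_antisymm (BB_inj_aux hs h1' h2' hM.symm hY.symm a4 a5 a1 a2 a3)
        (BB_inj_aux hs h1 h2 hM hY a1 a2 a4 a5 a6)
    apply Setoid.ext
    intro e f
    obtain ⟨r, c1, c2, c3⟩ := exists_min P e
    obtain ⟨r', c1', c2', c3'⟩ := exists_min P' e
    obtain ⟨t, d1, d2, d3⟩ := exists_min P f
    obtain ⟨t', d1', d2', d3'⟩ := exists_min P' f
    have e1 := key e r r' c1 c2 c3 c1' c2' c3'
    have e2 := key f t t' d1 d2 d3 d1' d2' d3'
    subst e1 e2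
    constructor
    · intro hef
      have : r = t := by
        have g1 : P r t := P.trans (P.symm c2) (P.trans hef d2)
        exact le_antisymm ((mem_Mn P r).1 c1 _ g1) ((mem_Mn P t).1 d1 _ (P.symm g1))
      subst this
      exact P'.trans c2' (P'.symm d2')
    · intro hef
      have : r = t := by
        have g1 : P' r t := P'.trans (P'.symm c2') (P'.trans hef d2')
        exact le_antisymm ((mem_Mn P' r).1 c1' _ g1) ((mem_Mn P' t).1 d1' _ (P'.symm g1))
      subst this
      exact P.trans c2 (P.symm d2)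

/-- The partition with singletons `Y` in which new classes start at the elements of `D`. -/
def gen {n : ℕ} (Y D : Finset (Fin n)) : Setoid (Fin n) where
  r i j := i = j ∨ (i ∉ Y ∧ j ∉ Y ∧ ∀ d ∈ D, (d ≤ i ↔ d ≤ j))
  iseqv := by
    refine ⟨fun i => Or.inl rfl, ?_, ?_⟩
    · rintro i j (h | ⟨h1, h2, h3⟩)
      · exact Or.inl h.symm
      · exact Or.inr ⟨h2, h1, fun d hd => (h3 d hd).symm⟩
    · rintro i j k (rfl | ⟨h1, h2, h3⟩) h
      · exact h
      · rcases h with rfl | ⟨h4, h5, h6⟩
        · exact Or.inr ⟨h1, h2, h3⟩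
        · exact Or.inr ⟨h1, h5, fun d hd => (h3 d hd).trans (h6 d hd)⟩

lemma gen_Mn {n : ℕ} (Y D : Finset (Fin n)) (z : Fin n) (hz : z ∈ D) (hz0 : (z : ℕ) = 0)
    (hYD : ∀ x ∈ Y, x ∉ D) : Mn (gen Y D) = Y ∪ D := by
  classical
  ext i
  rw [mem_Mn, Finset.mem_union]
  constructor
  · intro h
    by_contra hcon
    push Not at hcon
    obtain ⟨hiY, hiD⟩ := hcon
    obtain ⟨x, hx, hmax⟩ := Finset.exists_max_image (D.filter (fun d => d ≤ i)) id
      ⟨z, Finset.mem_filter.2 ⟨hz, by
        show (z : ℕ) ≤ i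
        omega⟩⟩
    rw [Finset.mem_filter] at hx
    have hxi : i ≤ x := by
      apply h
      refine Or.inr ⟨hiY, fun hxY => hYD x hxY hx.1, ?_⟩
      intro d hd
      constructor
      · intro hdi
        exact hmax d (Finset.mem_filter.2 ⟨hd, hdi⟩)
      · intro hdx
        exact hdx.trans hx.2
    have : i = x := le_antisymm hxi hx.2
    rw [this] at hiD
    exact hiD hx.1
  · rintro (hi | hi) j (rfl | ⟨h1, h2, h3⟩)
    · exact le_rfl
    · exact absurd hi h1
    · exact le_rfl
    · exact (h3 i hi).1 le_rfl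

lemma gen_Sg_of_mem {n : ℕ} (Y D : Finset (Fin n)) {x : Fin n} (hx : x ∈ Y) :
    x ∈ Sg (gen Y D) := by
  rw [mem_Sg]
  rintro j (rfl | ⟨h1, _⟩)
  · rfl
  · exact absurd hx h1

lemma gen_not_Sg {n : ℕ} (Y D : Finset (Fin n)) {x y : Fin n} (hx : x ∉ Y) (hxy : (y : ℕ) = x + 1)
    (hy : y ∉ Y) (hyD : y ∉ D) : x ∉ Sg (gen Y D) := by
  rw [mem_Sg]
  intro h
  have h1 : y = x := by
    apply h
    refine Or.inr ⟨hx, hy, ?_⟩
    intro d hd
    constructor
    · intro h1
      have : (d : ℕ) ≤ x := h1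
      show (d : ℕ) ≤ y
      omega
    · intro h1
      have h2 : (d : ℕ) ≤ y := h1
      have h3 : (d : ℕ) ≠ y := by
        intro h3
        have : d = y := Fin.ext h3
        rw [this] at hd
        exact hyD hd
      show (d : ℕ) ≤ x
      omega
  have : (y : ℕ) = x := congrArg Fin.val h1
  omega

lemma gen_ok (Y D : Finset (Fin (2 * s))) (m : Fin (2 * s)) (hm : m ∈ D) (hms : (m : ℕ) = s) :
    Ok (gen Y D) ∧ ¬ Cr (gen Y D) := by
  have main : ∀ a b c d : Fin (2 * s), gen Y D a c → gen Y D b d → b ≠ d → (a : ℕ) < b →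
      (b : ℕ) < c → gen Y D a b := by
    rintro a b c d hac hbd hne h1 h2
    rcases hac with rfl | ⟨ha, hc, hD⟩
    · omega
    · rcases hbd with hbd | ⟨hb, hd, _⟩
      · exact absurd hbd hne
      · refine Or.inr ⟨ha, hb, ?_⟩
        intro d' hd'
        constructor
        · intro h3
          have : (d' : ℕ) ≤ a := h3
          show (d' : ℕ) ≤ b
          omega
        · intro h3
          apply (hD d' hd').2
          have : (d' : ℕ) ≤ b := h3
          show (d' : ℕ) ≤ c
          omega
  have hhalf : ∀ a c : Fin (2 * s), gen Y D a c → (s ≤ (a : ℕ) ↔ s ≤ (c : ℕ)) := by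
    rintro a c (rfl | ⟨_, _, h⟩)
    · rfl
    · have : (m : ℕ) ≤ a ↔ (m : ℕ) ≤ c := h m hm
      rw [hms] at this
      exact this
  refine ⟨⟨fun a b c d hac hbd hne h1 h2 => main a b c d hac hbd hne h1 h2, ?_⟩, ?_⟩
  · intro a b c d hac hbd hne h1 h2
    have h1' : ((rot s a : Fin (2 * s)) : ℕ) < (rot s b : Fin (2 * s)) := h1
    have h2' : ((rot s b : Fin (2 * s)) : ℕ) < (rot s c : Fin (2 * s)) := h2
    have h3 := hhalf a c hac
    have hb := b.2
    have hcc := c.2
    have haa := a.2
    by_cases ha : (a : ℕ) < s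
    · have hc : (c : ℕ) < s := by omega
      rw [rot_lo a ha] at h1'
      rw [rot_lo c hc] at h2'
      by_cases hb' : (b : ℕ) < s
      · rw [rot_lo b hb'] at h1' h2'
        exact main a b c d hac hbd hne (by omega) (by omega)
      · rw [rot_hi b (by omega)] at h1' h2'
        omega
    · have hc : s ≤ (c : ℕ) := by omega
      rw [rot_hi a (by omega)] at h1'
      rw [rot_hi c hc] at h2'
      by_cases hb' : (b : ℕ) < s
      · rw [rot_lo b hb'] at h1' h2'
        omega
      · rw [rot_hi b (by omega)] at h1' h2'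
        exact main a b c d hac hbd hne (by omega) (by omega)
  · rintro ⟨a, c, hac, ha, hc⟩
    have := hhalf a c hac
    omega

/-- Allowed positions of marks. -/
def WW (s : ℕ) : Finset (Fin (2 * s)) :=
  Finset.univ.filter (fun i => (i : ℕ) ≠ 0 ∧ (i : ℕ) ≠ s ∧ (i : ℕ) + 1 ≠ s ∧ (i : ℕ) + 1 ≠ 2 * s)

open Classical in
/-- Sets of marks without two consecutive elements. -/
noncomputable def Xs (s j : ℕ) : Finset (Finset (Fin (2 * s))) :=
  (Finset.powersetCard j (WW s)).filter (fun X => ∀ x ∈ X, ∀ y ∈ X, (y : ℕ) ≠ x + 1)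

lemma WW_card (hs : 1 ≤ s) : 2 * s - 4 ≤ (WW s).card := by
  classical
  let F : Finset (Fin (2 * s)) := {⟨0, by omega⟩, ⟨s, by omega⟩, ⟨s - 1, by omega⟩,
    ⟨2 * s - 1, by omega⟩}
  have h1 : (Finset.univ : Finset (Fin (2 * s))) \ F ⊆ WW s := by
    intro i hi
    rw [Finset.mem_sdiff] at hi
    have h2 := hi.2
    simp only [F, Finset.mem_insert, Finset.mem_singleton, Fin.ext_iff, not_or] at h2
    rw [WW, Finset.mem_filter]
    refine ⟨Finset.mem_univ _, ?_⟩
    omega
  have h2 : F.card ≤ 4 := Finset.card_le_four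
  have h3 := Finset.le_card_sdiff F (Finset.univ : Finset (Fin (2 * s)))
  rw [Finset.card_univ, Fintype.card_fin] at h3
  have h4 := Finset.card_le_card h1
  omega

lemma Xs_card (hs : 1 ≤ s) (j : ℕ) :
    (2 * s - 4).choose j ≤ (Xs s j).card + (2 * s) * (2 * s).choose (j - 2) := by
  classical
  have h0 : (2 * s - 4).choose j ≤ (Finset.powersetCard j (WW s)).card := by
    rw [Finset.card_powersetCard]
    exact Nat.choose_le_choose j (WW_card hs)
  let bad : Fin (2 * s) → Finset (Finset (Fin (2 * s))) := fun x =>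
    (Finset.powersetCard j (WW s)).filter (fun X => x ∈ X ∧ ∃ y ∈ X, (y : ℕ) = x + 1)
  have h1 : Finset.powersetCard j (WW s) ⊆ Xs s j ∪ Finset.univ.biUnion bad := by
    intro X hX
    rw [Finset.mem_union]
    by_cases h : ∀ x ∈ X, ∀ y ∈ X, (y : ℕ) ≠ x + 1
    · left
      exact Finset.mem_filter.2 ⟨hX, h⟩
    · right
      push Not at h
      obtain ⟨x, hx, y, hy, hxy⟩ := h
      rw [Finset.mem_biUnion]
      exact ⟨x, Finset.mem_univ _, Finset.mem_filter.2 ⟨hX, hx, y, hy, hxy⟩⟩
  have hWc : (WW s).card ≤ 2 * s := by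
    have := Finset.card_le_univ (WW s)
    rwa [Fintype.card_fin] at this
  have h2 : ∀ x ∈ (Finset.univ : Finset (Fin (2 * s))), (bad x).card ≤ (2 * s).choose (j - 2) := by
    intro x _
    by_cases hx : (x : ℕ) + 1 < 2 * s
    · let y : Fin (2 * s) := ⟨x + 1, hx⟩
      have hxy : x ≠ y := by
        intro h
        have : (x : ℕ) = x + 1 := congrArg Fin.val h
        omega
      have hb : ∀ X ∈ bad x, x ∈ X ∧ y ∈ X ∧ X ⊆ WW s ∧ X.card = j := by
        intro X hX
        obtain ⟨h3, h4, y', h5, h6⟩ := Finset.mem_filter.1 hX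
        have : y' = y := Fin.ext h6
        rw [this] at h5
        exact ⟨h4, h5, (Finset.mem_powersetCard.1 h3).1, (Finset.mem_powersetCard.1 h3).2⟩
      calc (bad x).card ≤ (Finset.powersetCard (j - 2) (WW s)).card := by
            refine Finset.card_le_card_of_injOn (fun X => (X.erase x).erase y) ?_ ?_
            · intro X hX
              obtain ⟨h3, h4, h5, h6⟩ := hb X hX
              rw [Finset.mem_coe, Finset.mem_powersetCard]
              refine ⟨(Finset.erase_subset _ _).trans ((Finset.erase_subset _ _).trans h5), ?_⟩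
              rw [Finset.card_erase_of_mem (Finset.mem_erase.2 ⟨hxy.symm, h4⟩),
                Finset.card_erase_of_mem h3, h6]
              omega
            · intro X hX X' hX' h
              obtain ⟨h3, h4, h5, h6⟩ := hb X hX
              obtain ⟨h3', h4', h5', h6'⟩ := hb X' hX'
              simp only at h
              have e1 : insert y ((X.erase x).erase y) = X.erase x :=
                Finset.insert_erase (Finset.mem_erase.2 ⟨hxy.symm, h4⟩)
              have e2 : insert y ((X'.erase x).erase y) = X'.erase x :=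
                Finset.insert_erase (Finset.mem_erase.2 ⟨hxy.symm, h4'⟩)
              rw [h, e2] at e1
              have e3 : insert x (X.erase x) = X := Finset.insert_erase h3
              have e4 : insert x (X'.erase x) = X' := Finset.insert_erase h3'
              rw [← e3, ← e4, e1]
        _ = ((WW s).card).choose (j - 2) := Finset.card_powersetCard _ _
        _ ≤ (2 * s).choose (j - 2) := Nat.choose_le_choose _ hWc
    · have : bad x = ∅ := by
        rw [Finset.eq_empty_iff_forall_notMem]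
        intro X hX
        obtain ⟨h3, h4, y', h5, h6⟩ := Finset.mem_filter.1 hX
        have := y'.2
        omega
      rw [this]
      simp
  have h3 : (Finset.univ.biUnion bad).card ≤ (2 * s) * (2 * s).choose (j - 2) := by
    refine (Finset.card_biUnion_le).trans ((Finset.sum_le_sum h2).trans ?_)
    rw [Finset.sum_const, Finset.card_univ, Fintype.card_fin, smul_eq_mul]
  have h4 := Finset.card_le_card h1
  have h5 := Finset.card_union_le (Xs s j) (Finset.univ.biUnion bad)
  omega

lemma BB_lower (hs : 1 ≤ s) (k : ℕ) (hk : 2 ≤ k) :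
    (Xs s (k - 2)).card * 2 ^ (k - 2) ≤ (BB s k).ncard := by
  classical
  let z : Fin (2 * s) := ⟨0, by omega⟩
  let m : Fin (2 * s) := ⟨s, by omega⟩
  have hzm : z ≠ m := by
    intro h
    have : 0 = s := congrArg Fin.val h
    omega
  let T : Finset (Σ _ : Finset (Fin (2 * s)), Finset (Fin (2 * s))) :=
    (Xs s (k - 2)).sigma (fun X => X.powerset)
  have hXs : ∀ X ∈ Xs s (k - 2), X ⊆ WW s ∧ X.card = k - 2 ∧
      ∀ x ∈ X, ∀ y ∈ X, (y : ℕ) ≠ x + 1 := by
    intro X hX
    obtain ⟨h1, h2⟩ := Finset.mem_filter.1 hX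
    exact ⟨(Finset.mem_powersetCard.1 h1).1, (Finset.mem_powersetCard.1 h1).2, h2⟩
  have hT : T.card = (Xs s (k - 2)).card * 2 ^ (k - 2) := by
    rw [Finset.card_sigma]
    have h1 : ∀ X ∈ Xs s (k - 2), X.powerset.card = 2 ^ (k - 2) := by
      intro X hX
      rw [Finset.card_powerset, (hXs X hX).2.1]
    rw [Finset.sum_congr rfl h1, Finset.sum_const, smul_eq_mul]
  rw [← hT, ← Set.ncard_coe_finset]
  have hWz : ∀ X ∈ Xs s (k - 2), z ∉ X ∧ m ∉ X := by
    intro X hX
    constructor
    · intro h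
      have := (hXs X hX).1 h
      rw [WW, Finset.mem_filter] at this
      exact this.2.1 rfl
    · intro h
      have := (hXs X hX).1 h
      rw [WW, Finset.mem_filter] at this
      exact this.2.2.1 rfl
  have hMn : ∀ X ∈ Xs s (k - 2), ∀ Y ⊆ X, Mn (gen Y ((X \ Y) ∪ {z, m})) = X ∪ {z, m} := by
    intro X hX Y hY
    rw [gen_Mn Y _ z (by simp) rfl]
    · ext x
      simp only [Finset.mem_union, Finset.mem_sdiff]
      constructor
      · rintro (h | h | h)
        · exact Or.inl (hY h)
        · exact Or.inl h.1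
        · exact Or.inr h
      · rintro (h | h)
        · by_cases hx : x ∈ Y
          · exact Or.inl hx
          · exact Or.inr (Or.inl ⟨h, hx⟩)
        · exact Or.inr (Or.inr h)
    · intro x hx hx'
      rw [Finset.mem_union, Finset.mem_sdiff, Finset.mem_insert, Finset.mem_singleton] at hx'
      rcases hx' with h | h | h
      · exact h.2 hx
      · rw [h] at hx
        exact (hWz X hX).1 (hY hx)
      · rw [h] at hx
        exact (hWz X hX).2 (hY hx)
  have hSg : ∀ X ∈ Xs s (k - 2), ∀ Y ⊆ X, ∀ x ∈ X,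
      (x ∈ Sg (gen Y ((X \ Y) ∪ {z, m})) ↔ x ∈ Y) := by
    intro X hX Y hY x hx
    constructor
    · intro h
      by_contra hxY
      have h1 := (hXs X hX).1 hx
      rw [WW, Finset.mem_filter] at h1
      have hx2 := x.2
      have hlt : (x : ℕ) + 1 < 2 * s := by omega
      refine gen_not_Sg Y ((X \ Y) ∪ {z, m}) (x := x) (y := ⟨x + 1, hlt⟩) hxY rfl ?_ ?_ h
      · intro h2
        exact (hXs X hX).2.2 x hx _ (hY h2) rfl
      · intro h2
        rw [Finset.mem_union, Finset.mem_sdiff, Finset.mem_insert, Finset.mem_singleton] at h2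
        rcases h2 with h2 | h2 | h2
        · exact (hXs X hX).2.2 x hx _ h2.1 rfl
        · have : (x : ℕ) + 1 = 0 := congrArg Fin.val h2
          omega
        · have : (x : ℕ) + 1 = s := congrArg Fin.val h2
          omega
    · intro h
      exact gen_Sg_of_mem _ _ h
  refine Set.ncard_le_ncard_of_injOn
    (fun p : (Σ _ : Finset (Fin (2 * s)), Finset (Fin (2 * s))) =>
      gen p.2 ((p.1 \ p.2) ∪ {z, m})) ?_ ?_ (Set.toFinite _)
  · rintro ⟨X, Y⟩ hp
    rw [Finset.mem_coe, Finset.mem_sigma, Finset.mem_powerset] at hp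
    obtain ⟨hX, hY⟩ := hp
    simp only at hX hY
    have h1 := gen_ok Y ((X \ Y) ∪ {z, m}) m (by simp) rfl
    refine ⟨h1.1, h1.2, ?_⟩
    simp only
    rw [hMn X hX Y hY, Finset.card_union_of_disjoint, Finset.card_pair hzm, (hXs X hX).2.1]
    · omega
    · rw [Finset.disjoint_right]
      intro x hx
      rw [Finset.mem_insert, Finset.mem_singleton] at hx
      rcases hx with rfl | rfl
      · exact (hWz X hX).1
      · exact (hWz X hX).2
  · rintro ⟨X, Y⟩ hp ⟨X', Y'⟩ hp' h
    rw [Finset.mem_coe, Finset.mem_sigma, Finset.mem_powerset] at hp hp'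
    obtain ⟨hX, hY⟩ := hp
    obtain ⟨hX', hY'⟩ := hp'
    simp only at hX hY hX' hY' h
    have h1 := hMn X hX Y hY
    have h2 := hMn X' hX' Y' hY'
    rw [h] at h1
    rw [h1] at h2
    have hXX : X = X' := by
      ext x
      have h3 := Finset.ext_iff.1 h2 x
      simp only [Finset.mem_union, Finset.mem_insert, Finset.mem_singleton] at h3
      by_cases hxz : x = z
      · rw [hxz]
        simp [(hWz X hX).1, (hWz X' hX').1]
      by_cases hxm : x = m
      · rw [hxm]
        simp [(hWz X hX).2, (hWz X' hX').2]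
      simpa [hxz, hxm] using h3
    subst hXX
    have hYY : Y = Y' := by
      ext x
      constructor
      · intro hx
        have := (hSg X hX Y hY x (hY hx)).2 hx
        rw [h] at this
        exact (hSg X hX' Y' hY' x (hY hx)).1 this
      · intro hx
        have := (hSg X hX Y' hY' x (hY' hx)).2 hx
        rw [← h] at this
        exact (hSg X hX' Y hY x (hY' hx)).1 this
    rw [hYY]

lemma common_eq (hs : 2 ≤ s) (k : ℕ) :
    commonCount (cat (2 * s) (by omega) (Equiv.refl _)) (cat (2 * s) (by omega) (rot s)) k =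
      (AA s k).ncard + (BB s k).ncard := by
  rw [← Set.ncard_union_eq (by
    rw [Set.disjoint_left]
    rintro P ⟨_, h1, _⟩ ⟨_, h2, _⟩
    exact h2 h1) (Set.toFinite _) (Set.toFinite _)]
  unfold commonCount
  congr 1
  ext P
  rw [Set.mem_union]
  show (P ∈ parts _ ∧ P ∈ parts _ ∧ Nat.card (Quotient P) = k) ↔
    (Ok P ∧ Cr P ∧ (Mn P).card = k) ∨ (Ok P ∧ ¬ Cr P ∧ (Mn P).card = k)
  rw [parts_iff, parts_iff, card_quot]
  unfold Ok
  tauto

lemma upper (hs : 2 ≤ s) (k : ℕ) (hk : 1 ≤ k) :
    commonCount (cat (2 * s) (by omega) (Equiv.refl _)) (cat (2 * s) (by omega) (rot s)) k ≤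
      (2 * s).choose (k - 1) + (2 * s - 2).choose (k - 2) * 2 ^ (k - 2) := by
  rw [common_eq hs]
  exact add_le_add (AA_upper k hk) (BB_upper (by omega) k)

lemma lower (hs : 2 ≤ s) (k : ℕ) (hk : 2 ≤ k) (hks : k ≤ s) :
    (2 * s).choose (k - 1) +
      ((2 * s - 4).choose (k - 2) - (2 * s) * (2 * s).choose (k - 2 - 2)) * 2 ^ (k - 2) ≤
    commonCount (cat (2 * s) (by omega) (Equiv.refl _)) (cat (2 * s) (by omega) (rot s)) k := by
  rw [common_eq hs]
  have h1 := Xs_card (s := s) (by omega) (k - 2)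
  refine add_le_add (AA_lower k (by omega) hks) (le_trans ?_ (BB_lower (by omega) k hk))
  apply Nat.mul_le_mul_right
  omega

end Rot

lemma chd (n k : ℕ) : Nat.choose n k = n.descFactorial k / k.factorial :=
  Nat.choose_eq_descFactorial_div_factorial n k

set_option maxRecDepth 10000 in
lemma numeric : ((2 * 8192).choose (12 - 1) + (2 * 8192 - 2).choose (12 - 2) * 2 ^ (12 - 2)) ^ 2 <
    ((2 * 8192).choose (11 - 1) +
      ((2 * 8192 - 4).choose (11 - 2) - (2 * 8192) * (2 * 8192).choose (11 - 2 - 2)) *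
        2 ^ (11 - 2)) *
    ((2 * 8192).choose (13 - 1) +
      ((2 * 8192 - 4).choose (13 - 2) - (2 * 8192) * (2 * 8192).choose (13 - 2 - 2)) *
        2 ^ (13 - 2)) := by
  simp only [chd]
  norm_num [Nat.factorial, Nat.descFactorial]

/-- **Log-concavity fails.** There are `n ≥ 3`, two `n`-leaf phylogenetic trees `T`, `F` and
some `1 < k < n` with `a_k(T,F)^2 < a_{k-1}(T,F) * a_{k+1}(T,F)`. -/
theorem result : ∃ (n : ℕ) (T F : PhyloTree n) (k : ℕ), 3 ≤ n ∧ 1 < k ∧ k < n ∧
    commonCount T F k ^ 2 < commonCount T F (k - 1) * commonCount T F (k + 1) := by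
  refine ⟨2 * 8192, cat (2 * 8192) (by norm_num) (Equiv.refl _),
    cat (2 * 8192) (by norm_num) (rot 8192), 12, by norm_num, by norm_num, by norm_num, ?_⟩
  have h1 := upper (s := 8192) (by norm_num) 12 (by norm_num)
  have h2 := lower (s := 8192) (by norm_num) 11 (by norm_num) (by norm_num)
  have h3 := lower (s := 8192) (by norm_num) 13 (by norm_num) (by norm_num)
  have h4 := numeric
  exact lt_of_le_of_lt (Nat.pow_le_pow_left h1 2) (lt_of_lt_of_le h4 (Nat.mul_le_mul h2 h3))

end Pool.Agent.Results.MP_afdbb1_co.LogConcavityFails
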